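import Mathlib

namespace Pool.Agent.Results.MP_c0911c_al.Classification

/-- Terms in the language `(+, -, 0, ·)`. -/
inductive Tm : Type
  | var : ℕ → Tm
  | zero : Tm
  | add : Tm → Tm → Tm
  | neg : Tm → Tm
  | mul : Tm → Tm → Tm

/-- The value of a term under an assignment. -/
def Tm.eval {R : Type} [NonUnitalRing R] (ρ : ℕ → R) : Tm → R
  | .var n => ρ n
  | .zero => 0
  | .add s t => s.eval ρ + t.eval ρ
  | .neg s => - s.eval ρ
  | .mul s t => s.eval ρ * t.eval ρ

/-- The identity `s = t` holds in `R`. -/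
def Holds (R : Type) [NonUnitalRing R] (s t : Tm) : Prop := ∀ ρ : ℕ → R, s.eval ρ = t.eval ρ

/-- Some identity holds in every proper quotient ring but fails in `R`. -/
def Critical (R : Type) [NonUnitalRing R] : Prop :=
  ∃ s t : Tm, (∀ I : TwoSidedIdeal R, I ≠ ⊥ → Holds I.ringCon.Quotient s t) ∧ ¬ Holds R s t

/-- `R` has a smallest nonzero ideal. -/
def Monolithic (R : Type) [NonUnitalRing R] : Prop :=
  ∃ M : TwoSidedIdeal R, M ≠ ⊥ ∧ ∀ I : TwoSidedIdeal R, I ≠ ⊥ → M ≤ I

/-- `x` is nilpotent. -/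
def Nil {R : Type} [NonUnitalRing R] (x : R) : Prop := IsNilpotent (x : Unitization ℤ R)

/-- `a` is annihilated by every nilpotent element. -/
def Soc {R : Type} [NonUnitalRing R] (a : R) : Prop := ∀ x : R, Nil x → x * a = 0

/-- A nonzero local ring with identity whose socle is simple. -/
def LocalFrobenius (R : Type) [NonUnitalRing R] : Prop :=
  ∃ u : R, u ≠ 0 ∧ (∀ x, u * x = x) ∧ (∀ x : R, Nil x ∨ ∃ y, x * y = u) ∧
    ∀ a b : R, Soc a → Soc b → a ≠ 0 → ∃ r, b = r * a

/-- A nil ring whose annihilator is a cyclic group of order `p ^ k > 1`. -/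
def NilCyclic (R : Type) [NonUnitalRing R] : Prop :=
  (∀ x : R, Nil x) ∧ ∃ (p k : ℕ) (g : R), p.Prime ∧ 0 < k ∧ addOrderOf g = p ^ k ∧
    ∀ a : R, (∀ x, x * a = 0) ↔ a ∈ AddSubgroup.zmultiples g

variable {R : Type} [NonUnitalCommRing R]

lemma inj {a b : R} (h : (a : Unitization ℤ R) = b) : a = b := Unitization.inr_injective h

lemma eval_quot (I : TwoSidedIdeal R) (ρ : ℕ → R) (t : Tm) :
    t.eval (fun n => (ρ n : I.ringCon.Quotient)) = ((t.eval ρ : R) : I.ringCon.Quotient) := by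
  induction t with
  | var n => rfl
  | zero => rfl
  | add s t hs ht => simp only [Tm.eval, hs, ht]; rfl
  | neg s hs => simp only [Tm.eval, hs]; rfl
  | mul s t hs ht => simp only [Tm.eval, hs, ht]; rfl

lemma crit_mono (h : Critical R) : Monolithic R := by
  obtain ⟨s, t, h1, h2⟩ := h
  unfold Holds at h2
  push Not at h2
  obtain ⟨ρ, hρ⟩ := h2
  refine ⟨TwoSidedIdeal.span {s.eval ρ - t.eval ρ}, ?_, ?_⟩
  · intro hb
    have : s.eval ρ - t.eval ρ ∈ TwoSidedIdeal.span {s.eval ρ - t.eval ρ} :=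
      TwoSidedIdeal.subset_span rfl
    rw [hb, TwoSidedIdeal.mem_bot, sub_eq_zero] at this
    exact hρ this
  · intro I hI
    rw [TwoSidedIdeal.span_le]
    rintro _ rfl
    have := h1 I hI (fun n => (ρ n : I.ringCon.Quotient))
    rw [eval_quot, eval_quot, RingCon.eq] at this
    exact (I.rel_iff _ _).1 this

lemma crit_of (t : Tm) (h1 : ∃ ρ : ℕ → R, t.eval ρ ≠ 0)
    (h2 : ∀ I : TwoSidedIdeal R, I ≠ ⊥ → ∀ ρ : ℕ → R, t.eval ρ ∈ I) : Critical R := by
  refine ⟨t, .zero, fun I hI ρ' => ?_, fun h => ?_⟩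
  · have : ∀ n, ∃ r : R, (r : I.ringCon.Quotient) = ρ' n := fun n =>
      Quotient.inductionOn' (ρ' n) fun r => ⟨r, rfl⟩
    choose ρ hρ using this
    have e : ρ' = fun n => (ρ n : I.ringCon.Quotient) := funext fun n => (hρ n).symm
    rw [e, eval_quot, eval_quot, RingCon.eq, I.rel_iff]
    simpa [Tm.eval] using h2 I hI ρ
  · obtain ⟨ρ, hρ⟩ := h1
    exact hρ (h ρ)

/-- `pw x n = x ^ (n + 1)`. -/
def pw (x : R) : ℕ → R
  | 0 => x
  | n + 1 => pw x n * x

lemma coe_pw (x : R) (n : ℕ) : ((pw x n : R) : Unitization ℤ R) = (x : Unitization ℤ R) ^ (n + 1) := by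
  induction n with
  | zero => simp [pw]
  | succ n ih => rw [pw, Unitization.inr_mul, ih, ← pow_succ]

lemma exists_exp [Finite R] :
    ∃ e : ℕ, 0 < e ∧ ∀ x : R, IsIdempotentElem ((x : Unitization ℤ R) ^ e) := by
  have h1 : ∀ x : R, ∃ e : ℕ, 0 < e ∧ IsIdempotentElem ((x : Unitization ℤ R) ^ e) := by
    intro x
    obtain ⟨i, j, hij, h⟩ : ∃ i j, i < j ∧ pw x i = pw x j := by
      obtain ⟨i, j, hij, h⟩ := Finite.exists_ne_map_eq_of_infinite (pw x)
      rcases lt_or_gt_of_ne hij with h' | h'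
      · exact ⟨i, j, h', h⟩
      · exact ⟨j, i, h', h.symm⟩
    obtain ⟨d, rfl⟩ := Nat.exists_eq_add_of_lt hij
    have h2 : (x : Unitization ℤ R) ^ (i + 1) = (x : Unitization ℤ R) ^ (i + 1 + (d + 1)) := by
      rw [← coe_pw, h, coe_pw]
      congr 1
      ring
    have h3 : ∀ t, (x : Unitization ℤ R) ^ (i + 1 + t * (d + 1)) = (x : Unitization ℤ R) ^ (i + 1) := by
      intro t
      induction t with
      | zero => simp
      | succ t ih =>
        have : i + 1 + (t + 1) * (d + 1) = (i + 1 + (d + 1)) + t * (d + 1) := by ring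
        rw [this, pow_add, ← h2, ← pow_add, ih]
    refine ⟨(i + 1) * (d + 1), by positivity, ?_⟩
    unfold IsIdempotentElem
    have e1 : (i + 1) * (d + 1) + (i + 1) * (d + 1)
        = (i + 1 + (i + 1) * (d + 1)) + (i + 1) * d := by ring
    have e2 : (i + 1) * (d + 1) = (i + 1) + (i + 1) * d := by ring
    rw [← pow_add, e1, pow_add, h3, ← pow_add, ← e2]
  choose f hf0 hf using h1
  haveI := Fintype.ofFinite R
  refine ⟨∏ x, f x, Finset.prod_pos fun x _ => hf0 x, fun x => ?_⟩
  obtain ⟨c, hc⟩ := Finset.dvd_prod_of_mem f (Finset.mem_univ x)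
  rw [hc, pow_mul]
  exact (hf x).pow c

/-- The action of the unitization. -/
def act (c : Unitization ℤ R) (w : R) : R := c.fst • w + c.snd * w

lemma coe_act (c : Unitization ℤ R) (w : R) : ((act c w : R) : Unitization ℤ R) = c * w := by
  conv_rhs => rw [← Unitization.inl_fst_add_inr_snd_eq c]
  rw [act, add_mul, Unitization.inr_add, Unitization.inr_mul, Unitization.inl_mul_inr]

/-- The size of the ideal generated by `w`. -/
noncomputable def size (w : R) : ℕ := (Set.range fun c : Unitization ℤ R => act c w).ncard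

lemma size_lt [Finite R] {w x : R} (hx : Nil x) (h : w * x ≠ 0) : size (w * x) < size w := by
  apply Set.ncard_lt_ncard _ (Set.toFinite _)
  constructor
  · rintro _ ⟨c, rfl⟩
    refine ⟨c * x, inj ?_⟩
    simp only [coe_act, Unitization.inr_mul]
    ring
  · intro hsub
    obtain ⟨c, hc⟩ := hsub ⟨1, rfl⟩
    have h1 := congrArg (fun r : R => (r : Unitization ℤ R)) hc
    simp only [coe_act, Unitization.inr_mul, one_mul] at h1
    obtain ⟨n, hn⟩ := hx
    have h2 : ∀ m : ℕ, (w : Unitization ℤ R) = (c * x) ^ m * w := by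
      intro m
      induction m with
      | zero => simp
      | succ m ih => rw [pow_succ, mul_assoc, mul_assoc c, mul_comm (x : Unitization ℤ R), h1, ← ih]
    have h3 := h2 n
    have hn' : (x : Unitization ℤ R) ^ n = 0 := hn
    have h4 : (c * x) ^ n = c ^ n * (x : Unitization ℤ R) ^ n := by ring
    rw [h4, hn', mul_zero, zero_mul] at h3
    have : w = 0 := inj (by simpa using h3)
    exact h (by rw [this, zero_mul])

lemma soc_in_ideal [Finite R] (I : TwoSidedIdeal R) (hI : I ≠ ⊥) : ∃ a ∈ I, a ≠ 0 ∧ Soc a := by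
  have h0 : ∃ a ∈ I, a ≠ 0 := by
    by_contra hc
    push Not at hc
    exact hI (eq_bot_iff.2 fun a ha => by simpa using hc a ha)
  obtain ⟨a, ha, ha0⟩ := h0
  induction hn : size a using Nat.strong_induction_on generalizing a with
  | _ n ih =>
    by_cases hs : Soc a
    · exact ⟨a, ha, ha0, hs⟩
    · unfold Soc at hs
      push Not at hs
      obtain ⟨x, hx, hxa⟩ := hs
      rw [mul_comm] at hxa
      exact ih _ (hn ▸ size_lt hx hxa) (a * x) (I.mul_mem_right _ _ ha) hxa rfl

/-- The term `x ^ (n + 1)`. -/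
def tpw (t : Tm) : ℕ → Tm
  | 0 => t
  | n + 1 => .mul (tpw t n) t

lemma eval_tpw (ρ : ℕ → R) (t : Tm) (n : ℕ) : (tpw t n).eval ρ = pw (t.eval ρ) n := by
  induction n with
  | zero => rfl
  | succ n ih => simp only [tpw, Tm.eval, ih, pw]

/-- The terms `x₀ · ∏ (xᵢ - xᵢ ^ (e + 1))`. -/
def tt (e : ℕ) : ℕ → Tm
  | 0 => .var 0
  | k + 1 => .mul (tt e k) (.add (.var (k + 1)) (.neg (tpw (.var (k + 1)) e)))

lemma eval_tt_succ (ρ : ℕ → R) (e k : ℕ) :
    (tt e (k + 1)).eval ρ = (tt e k).eval ρ * (ρ (k + 1) + - pw (ρ (k + 1)) e) := by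
  simp only [tt, Tm.eval, eval_tpw]

lemma eval_tt_update (ρ : ℕ → R) (e k m : ℕ) (hm : k < m) (x : R) :
    (tt e k).eval (Function.update ρ m x) = (tt e k).eval ρ := by
  induction k with
  | zero => simp only [tt, Tm.eval]; rw [Function.update_of_ne (by omega)]
  | succ k ih => rw [eval_tt_succ, eval_tt_succ, ih (by omega), Function.update_of_ne (by omega)]

lemma aux1 {U : Type} [CommRing U] (x : U) {e : ℕ} (he0 : 0 < e) (he : IsIdempotentElem (x ^ e)) :
    (x * (1 - x ^ e)) ^ e = 0 := by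
  rw [mul_pow, he.one_sub.pow_eq he0.ne', mul_sub, mul_one, he.eq, sub_self]

lemma aux2 {U : Type} [CommRing U] (x : U) {e n : ℕ} (he0 : 0 < e) (he : IsIdempotentElem (x ^ e))
    (hn : x ^ n = 0) : x ^ e = 0 :=
  he.eq_zero_of_isNilpotent (IsNilpotent.pow_of_pos ⟨n, hn⟩ he0.ne')

lemma exists_soc_term [Finite R] (h0 : ∃ a : R, a ≠ 0) :
    ∃ t : Tm, (∃ ρ : ℕ → R, t.eval ρ ≠ 0) ∧ ∀ ρ : ℕ → R, Soc (t.eval ρ) := by
  classical
  obtain ⟨e, he0, he⟩ := exists_exp (R := R)
  have hj : ∀ x : R, Nil (x + - pw x e) := by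
    intro x
    refine ⟨e, ?_⟩
    have : ((x + - pw x e : R) : Unitization ℤ R) = x * (1 - (x : Unitization ℤ R) ^ e) := by
      rw [Unitization.inr_add, Unitization.inr_neg, coe_pw]
      ring
    show ((x + - pw x e : R) : Unitization ℤ R) ^ e = 0
    rw [this]
    exact aux1 (U := Unitization ℤ R) _ he0 (he x)
  have hj2 : ∀ x : R, Nil x → x + - pw x e = x := by
    intro x hx
    have h1 : (x : Unitization ℤ R) ^ e = 0 := by
      obtain ⟨n, hn⟩ := hx
      exact aux2 (U := Unitization ℤ R) _ he0 (he x) hn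
    have : pw x e = 0 := inj (by rw [coe_pw, pow_succ, h1]; simp)
    rw [this, neg_zero, add_zero]
  have hsz : ∀ k (ρ : ℕ → R), (tt e k).eval ρ ≠ 0 → size ((tt e k).eval ρ) + k ≤ Nat.card R := by
    intro k
    induction k with
    | zero => intro ρ _; exact Set.ncard_le_card _
    | succ k ih =>
      intro ρ h
      rw [eval_tt_succ] at h ⊢
      have h1 := size_lt (hj _) h
      have h2 := ih ρ (fun h' => h (by rw [h', zero_mul]))
      omega
  have hex : ∃ k, ∀ ρ : ℕ → R, (tt e (k + 1)).eval ρ = 0 := by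
    refine ⟨Nat.card R, fun ρ => ?_⟩
    by_contra h
    have := hsz _ ρ h
    omega
  refine ⟨tt e (Nat.find hex), ?_, fun ρ x hx => ?_⟩
  · rcases h : Nat.find hex with _ | k
    · obtain ⟨a, ha⟩ := h0
      exact ⟨fun _ => a, ha⟩
    · have := Nat.find_min hex (m := k) (by omega)
      push Not at this
      exact this
  · have := Nat.find_spec hex (Function.update ρ (Nat.find hex + 1) x)
    rw [eval_tt_succ, eval_tt_update _ _ _ _ (by omega), Function.update_self, hj2 x hx] at this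
    rw [mul_comm, this]

lemma crit_of_local [Finite R] (h : LocalFrobenius R) : Critical R := by
  obtain ⟨u, hu0, -, -, hs⟩ := h
  obtain ⟨t, ht, hsoc⟩ := exists_soc_term ⟨u, hu0⟩
  refine crit_of t ht fun I hI ρ => ?_
  obtain ⟨a, ha, ha0, has⟩ := soc_in_ideal I hI
  obtain ⟨r, hr⟩ := hs a _ has (hsoc ρ) ha0
  rw [hr]
  exact I.mul_mem_left _ _ ha

/-- The term `n • t`. -/
def tsm (t : Tm) : ℕ → Tm
  | 0 => .zero
  | n + 1 => .add (tsm t n) t

lemma eval_tsm (ρ : ℕ → R) (t : Tm) (n : ℕ) : (tsm t n).eval ρ = n • t.eval ρ := by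
  induction n with
  | zero => simp [tsm, Tm.eval]
  | succ n ih => simp only [tsm, Tm.eval, ih, succ_nsmul]

lemma crit_of_nil [Finite R] (h : NilCyclic R) : Critical R := by
  classical
  obtain ⟨hnil, p, k, g, hp, hk, hg, hann⟩ := h
  have hg0 : g ≠ 0 := by
    intro h
    rw [h, addOrderOf_zero] at hg
    exact (Nat.one_lt_pow hk.ne' hp.one_lt).ne hg
  obtain ⟨t, ht, hsoc⟩ := exists_soc_term ⟨g, hg0⟩
  have hmem : ∀ a : R, Soc a → ∃ z : ℤ, z • g = a := fun a ha =>
    (hann a).1 fun x => ha x (hnil x)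
  have hex : ∃ c, ∀ ρ : ℕ → R, p ^ (c + 1) • t.eval ρ = 0 := by
    refine ⟨k, fun ρ => ?_⟩
    obtain ⟨z, hz⟩ := hmem _ (hsoc ρ)
    rw [← hz, smul_comm, pow_succ', mul_smul, ← hg, addOrderOf_nsmul_eq_zero, smul_zero, smul_zero]
  obtain ⟨k, rfl⟩ := Nat.exists_eq_succ_of_ne_zero hk.ne'
  have hdvd : ∀ z : ℤ, z • g = 0 ↔ (p : ℤ) ^ (k + 1) ∣ z := by
    intro z
    rw [← addOrderOf_dvd_iff_zsmul_eq_zero, hg]
    simp
  have hp' : Prime (p : ℤ) := Nat.prime_iff_prime_int.1 hp
  refine crit_of (tsm t (p ^ Nat.find hex)) ?_ fun I hI ρ => ?_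
  · rcases h : Nat.find hex with _ | c
    · simpa [eval_tsm] using ht
    · have := Nat.find_min hex (m := c) (by omega)
      push Not at this
      simpa [eval_tsm] using this
  · obtain ⟨a, ha, ha0, has⟩ := soc_in_ideal I hI
    obtain ⟨z, rfl⟩ := hmem a has
    have hz0 : z ≠ 0 := by rintro rfl; simp at ha0
    obtain ⟨i, z', hz', rfl⟩ := WfDvdMonoid.max_power_factor hz0 hp'.irreducible
    have hi : i ≤ k := by
      by_contra hi
      exact ha0 ((hdvd _).2 (Dvd.dvd.mul_right (pow_dvd_pow _ (by omega)) _))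
    obtain ⟨l, rfl⟩ := Nat.exists_eq_add_of_le hi
    obtain ⟨α, β, hαβ⟩ := (hp'.coprime_iff_not_dvd.2 hz')
    have hg1 : ((p : ℤ) ^ (i + l)) • g ∈ I := by
      have e1 : ((p : ℤ) ^ (i + l)) • g
          = (β * p ^ l) • ((p : ℤ) ^ i * z') • g + (α * p ^ (i + l + 1)) • g := by
        rw [← mul_smul, ← add_smul]
        congr 1
        linear_combination (-(p : ℤ) ^ (i + l)) * hαβ
      rw [e1, (hdvd (α * p ^ (i + l + 1))).2 (Dvd.intro_left _ rfl), add_zero]
      exact zsmul_mem ha _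
    obtain ⟨y, hy⟩ := hmem _ (hsoc ρ)
    have h1 := Nat.find_spec hex ρ
    rw [eval_tsm, ← hy]
    rw [← hy, ← natCast_zsmul, ← mul_smul, hdvd] at h1
    rw [← natCast_zsmul, ← mul_smul]
    push_cast at h1 ⊢
    rw [pow_succ' _ (i + l), pow_succ' _ (Nat.find hex), mul_assoc] at h1
    obtain ⟨q, hq⟩ := (mul_dvd_mul_iff_left hp'.ne_zero).1 h1
    rw [hq, mul_comm, mul_smul]
    exact zsmul_mem hg1 _

lemma mem_of_set {m : R} (hm : ∀ I : TwoSidedIdeal R, I ≠ ⊥ → m ∈ I) (S : AddSubgroup R)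
    (hS : ∀ x a, a ∈ S → x * a ∈ S) {a : R} (ha : a ∈ S) (ha0 : a ≠ 0) : m ∈ S := by
  let I : TwoSidedIdeal R := TwoSidedIdeal.mk' S S.zero_mem (fun h1 h2 => S.add_mem h1 h2)
    (fun h => S.neg_mem h) (fun h => hS _ _ h) (fun {x y} h => by rw [mul_comm]; exact hS _ _ h)
  have hI : ∀ x, x ∈ I ↔ x ∈ S := fun x => by simp [I]
  refine (hI m).1 (hm I fun hb => ha0 ?_)
  have := (hI a).2 ha
  rwa [hb, TwoSidedIdeal.mem_bot] at this

lemma types_of_mono [Finite R] (h : Monolithic R) : LocalFrobenius R ∨ NilCyclic R := by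
  classical
  obtain ⟨M, hM0, hM⟩ := h
  obtain ⟨m, hmM, hm0, -⟩ := soc_in_ideal M hM0
  have hm : ∀ I : TwoSidedIdeal R, I ≠ ⊥ → m ∈ I := fun I hI => hM I hI hmM
  obtain ⟨e, he0, he⟩ := exists_exp (R := R)
  obtain ⟨e, rfl⟩ := Nat.exists_eq_succ_of_ne_zero he0.ne'
  have hid : ∀ x : R, ¬ Nil x → pw x e ≠ 0 ∧ ∀ y, pw x e * y = y := by
    intro x hx
    have h0 : pw x e ≠ 0 := fun h => hx ⟨e + 1, by rw [← coe_pw, h]; simp⟩
    have h1 : pw x e * pw x e = pw x e := inj (by rw [Unitization.inr_mul, coe_pw]; exact he x)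
    refine ⟨h0, fun y => ?_⟩
    by_contra hy
    let S1 : AddSubgroup R := (AddMonoidHom.mulLeft (pw x e)).eqLocus (AddMonoidHom.id R)
    let S2 : AddSubgroup R := (AddMonoidHom.mulLeft (pw x e)).ker
    have m1 : pw x e * m = m := mem_of_set hm S1 (fun z a ha => by
      have ha' : pw x e * a = a := ha
      show pw x e * (z * a) = z * a
      rw [mul_left_comm, ha']) (a := pw x e) h1 h0
    have m2 : pw x e * m = 0 := mem_of_set hm S2 (fun z a ha => by
      have ha' : pw x e * a = 0 := ha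
      show pw x e * (z * a) = 0
      rw [mul_left_comm, ha', mul_zero]) (a := pw x e * y - y) (by
      show pw x e * (pw x e * y - y) = 0
      rw [mul_sub, ← mul_assoc, h1, sub_self]) (sub_ne_zero.2 hy)
    exact hm0 (m1.symm.trans m2)
  by_cases hn : ∀ x : R, Nil x
  · right
    refine ⟨hn, ?_⟩
    let A : Set R := {a | ∀ x, x * a = 0}
    have hz : ∀ a ∈ A, a ≠ 0 → m ∈ AddSubgroup.zmultiples a := by
      intro a ha ha0
      refine mem_of_set hm _ ?_ (AddSubgroup.mem_zmultiples a) ha0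
      rintro x _ ⟨z, rfl⟩
      show x * (z • a) ∈ _
      rw [mul_smul_comm, ha x, smul_zero]
      exact zero_mem _
    have hsm : ∀ (n : ℕ), ∀ a ∈ A, n • a ∈ A := fun n a ha x => by
      rw [mul_smul_comm, ha x, smul_zero]
    have hsz : ∀ (n : ℤ), ∀ a ∈ A, n • a ∈ A := fun n a ha x => by
      rw [mul_smul_comm, ha x, smul_zero]
    obtain ⟨m', hm'M, hm'0, hm's⟩ := soc_in_ideal M hM0
    have hm'A : m' ∈ A := fun x => hm's x (hn x)
    have hmA : m ∈ A := by
      obtain ⟨z, hz'⟩ := hz m' hm'A hm'0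
      rw [← hz']
      exact hsz z m' hm'A
    have hq : ∀ a ∈ A, ∀ q : ℕ, q.Prime → q ∣ addOrderOf a → addOrderOf m = q := by
      intro a ha q hq hd
      have hpos : 0 < addOrderOf a := addOrderOf_pos a
      have ho : addOrderOf ((addOrderOf a / q) • a) = q := by
        rw [addOrderOf_nsmul_of_dvd (Nat.div_pos (Nat.le_of_dvd hpos hd) hq.pos).ne'
          (Nat.div_dvd_of_dvd hd), Nat.div_div_self hd hpos.ne']
      have hne : (addOrderOf a / q) • a ≠ 0 := by
        intro h
        rw [h, addOrderOf_zero] at ho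
        exact hq.one_lt.ne ho
      have h1 := addOrderOf_dvd_of_mem_zmultiples (hz _ (hsm _ a ha) hne)
      rw [ho] at h1
      rcases (Nat.dvd_prime hq).1 h1 with h2 | h2
      · exact (hm0 (AddMonoid.addOrderOf_eq_one_iff.1 h2)).elim
      · exact h2
    have hp : (addOrderOf m).Prime := by
      have h1 : addOrderOf m ≠ 1 := fun h => hm0 (AddMonoid.addOrderOf_eq_one_iff.1 h)
      rw [hq m hmA _ (Nat.minFac_prime h1) (Nat.minFac_dvd _)]
      exact Nat.minFac_prime h1
    set p := addOrderOf m with hpdef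
    have hpow : ∀ a ∈ A, ∃ i, addOrderOf a = p ^ i := fun a ha =>
      ⟨_, Nat.eq_prime_pow_of_unique_prime_dvd (addOrderOf_pos a).ne'
        fun hq' hd => (hq a ha _ hq' hd).symm⟩
    obtain ⟨g, hgA, hg⟩ := Set.exists_max_image A addOrderOf (Set.toFinite A) ⟨m, hmA⟩
    obtain ⟨k, hk⟩ := hpow g hgA
    have hk0 : 0 < k := by
      rcases Nat.eq_zero_or_pos k with h | h
      · have := hg m hmA
        rw [hk, h, pow_zero] at this
        exact absurd hp.one_lt (by omega)
      · exact h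
    have hg0 : g ≠ 0 := by
      intro h
      rw [h, addOrderOf_zero] at hk
      exact (Nat.one_lt_pow hk0.ne' hp.one_lt).ne hk
    have hp' : Prime (p : ℤ) := Nat.prime_iff_prime_int.1 hp
    refine ⟨p, k, g, hp, hk0, hk, fun a => ⟨fun ha => ?_, ?_⟩⟩
    · obtain ⟨k, rfl⟩ := Nat.exists_eq_succ_of_ne_zero hk0.ne'
      have ha' : a ∈ A := ha
      clear ha
      induction hn : addOrderOf a using Nat.strong_induction_on generalizing a with
      | _ n ih =>
        obtain ⟨i, hi⟩ := hpow a ha'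
        rcases i with _ | i
        · rw [pow_zero, AddMonoid.addOrderOf_eq_one_iff] at hi
          rw [hi]
          exact zero_mem _
        · have ho : addOrderOf (p • a) = p ^ i := by
            rw [addOrderOf_nsmul_of_dvd hp.ne_zero (by rw [hi]; exact Dvd.intro_left _ rfl), hi,
              pow_succ, Nat.mul_div_cancel _ hp.pos]
          obtain ⟨z, hz'⟩ := ih _ (by
            rw [← hn, hi]
            exact Nat.pow_lt_pow_right hp.one_lt (by omega)) (p • a) (hsm _ a ha') ho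
          have hz2 : z • g = p • a := hz'
          have hik : i ≤ k := by
            have := hg a ha'
            rw [hi, hk] at this
            have := (Nat.pow_le_pow_iff_right hp.one_lt).1 this
            omega
          have h1 : ((p : ℤ) ^ k * z) • g = 0 := by
            rw [mul_smul, hz2, ← Nat.cast_pow, natCast_zsmul]
            apply addOrderOf_dvd_iff_nsmul_eq_zero.1
            rw [ho]
            exact pow_dvd_pow _ hik
          rw [← addOrderOf_dvd_iff_zsmul_eq_zero, hk] at h1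
          push_cast at h1
          rw [pow_succ] at h1
          obtain ⟨z', rfl⟩ := (mul_dvd_mul_iff_left (pow_ne_zero k hp'.ne_zero)).1 h1
          by_cases hb : a - z' • g = 0
          · rw [sub_eq_zero.1 hb]
            exact ⟨z', rfl⟩
          · have hbA : a - z' • g ∈ A := fun x => by
              rw [mul_sub, ha' x, hsz z' g hgA x, sub_zero]
            have hpb : (p : ℤ) • (a - z' • g) = 0 := by
              rw [smul_sub, ← mul_smul, hz2, natCast_zsmul, sub_self]
            obtain ⟨t, ht⟩ := hz _ hbA hb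
            have ht' : t • (a - z' • g) = m := ht
            have hpt : ¬ (p : ℤ) ∣ t := by
              rintro ⟨t', rfl⟩
              rw [mul_comm, mul_smul, hpb, smul_zero] at ht'
              exact hm0 ht'.symm
            obtain ⟨α, β, hαβ⟩ := hp'.coprime_iff_not_dvd.2 hpt
            have h2 : a - z' • g = β • m := by
              rw [← ht', ← mul_smul]
              have : β * t = 1 - α * p := by linear_combination hαβ
              rw [this, sub_smul, one_smul, mul_smul, hpb, smul_zero, sub_zero]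
            rw [sub_eq_iff_eq_add.1 h2]
            exact add_mem (zsmul_mem (hz g hgA hg0) _) ⟨z', rfl⟩
    · rintro ⟨z, rfl⟩
      exact hsz z g hgA
  · left
    push Not at hn
    obtain ⟨x0, hx0⟩ := hn
    obtain ⟨hu0, hu⟩ := hid x0 hx0
    have hunit : ∀ x : R, ¬ Nil x → ∃ y, x * y = pw x0 e := by
      intro x hx
      obtain ⟨-, h2⟩ := hid x hx
      have h3 : pw x e = pw x0 e := by rw [← h2 (pw x0 e), mul_comm, hu]
      refine ⟨pw x (2 * e), ?_⟩
      rw [← h3]
      apply inj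
      rw [Unitization.inr_mul, coe_pw, coe_pw, ← (he x).eq, ← pow_add, ← pow_succ']
      congr 1
      omega
    have hmul : ∀ a : R, a ≠ 0 → ∃ r, r * a = m := by
      intro a ha
      exact mem_of_set hm (AddMonoidHom.mulRight a).range (by
        rintro x _ ⟨r, rfl⟩
        exact ⟨x * r, mul_assoc _ _ _⟩) (a := a) ⟨pw x0 e, hu a⟩ ha
    refine ⟨pw x0 e, hu0, hu, fun x => (em _).imp id (hunit x), fun a b _ hb ha0 => ?_⟩
    by_cases hb0 : b = 0
    · exact ⟨0, by rw [hb0, zero_mul]⟩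
    · obtain ⟨r, hr⟩ := hmul a ha0
      obtain ⟨s, hs⟩ := hmul b hb0
      obtain ⟨s', hs'⟩ := hunit s fun h => hm0 (by rw [← hs, hb s h])
      refine ⟨s' * r, ?_⟩
      rw [mul_assoc, hr, ← hs, ← mul_assoc, mul_comm s', hs', hu]

theorem result (R : Type) [NonUnitalCommRing R] [Finite R] :
    (Critical R ↔ Monolithic R) ∧ (Critical R ↔ LocalFrobenius R ∨ NilCyclic R) :=
  ⟨⟨crit_mono, fun h => (types_of_mono h).elim crit_of_local crit_of_nil⟩,
    ⟨fun h => types_of_mono (crit_mono h), fun h => h.elim crit_of_local crit_of_nil⟩⟩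

end Pool.Agent.Results.MP_c0911c_al.Classification
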